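import Mathlib
import Pool.Agent.H14.Thmc

set_option autoImplicit false

namespace Pool.Agent.Results.MP_c5e1a2_co.Groebner

open Pool.Agent.H14.Thmc

theorem result : ∀ (K : Type) [Field K] (m : MonomialOrder (Word 6 4))
    (B : Set (MvPolynomial (Word 6 4) K)), (∀ g ∈ B, g ∈ toricIdeal K 6 4) →
    (∀ f ∈ toricIdeal K 6 4, f ≠ 0 → ∃ g ∈ B, g ≠ 0 ∧ m.degree g ≤ m.degree f) →
    ∃ g ∈ B, 9 ≤ g.totalDegree := by
  intro K _ m B hB h
  by_contra hc
  push Not at hc
  apply main K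
  refine le_antisymm ((span_of_gb m _ B hB h).trans (Ideal.span_mono fun g hg => ⟨hB g hg, ?_⟩))
    (Ideal.span_le.2 fun g hg => hg.1)
  have := hc g hg
  omega

end Pool.Agent.Results.MP_c5e1a2_co.Groebner
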