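import Mathlib
import Pool.Agent.H14.Thmc

set_option autoImplicit false

namespace Pool.Agent.Results.MP_c5e1a2_co.Markov

open Pool.Agent.H14.Thmc

theorem result : ∀ (K : Type) [Field K],
    toricIdeal K 6 4 ≠ Ideal.span {q | q ∈ toricIdeal K 6 4 ∧ q.totalDegree ≤ 8} :=
  main

end Pool.Agent.Results.MP_c5e1a2_co.Markov
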